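import Mathlib

/-! Divisor bound. -/

namespace Pool.Agent.H93.BT

open Finset

lemma local_small (ε : ℝ) (hε : 0 < ε) : ∃ C : ℝ, 1 ≤ C ∧ ∀ a : ℕ, (a + 1 : ℝ) ≤ C * (2:ℝ) ^ (ε * a) := by
  have hl2 : 0 < Real.log 2 := Real.log_pos (by norm_num)
  refine ⟨1 + 1 / (ε * Real.log 2), by have : 0 < 1 / (ε * Real.log 2) := by positivity
                                       linarith, fun a => ?_⟩
  have h1 : 1 + ε * Real.log 2 * a ≤ (2:ℝ) ^ (ε * a) := by
    rw [Real.rpow_def_of_pos (by norm_num)]
    have := Real.add_one_le_exp (Real.log 2 * (ε * a))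
    linarith
  have h2 : (1:ℝ) ≤ (2:ℝ) ^ (ε * a) := by
    apply Real.one_le_rpow (by norm_num); positivity
  have h3 : (a:ℝ) ≤ 1 / (ε * Real.log 2) * (2:ℝ) ^ (ε * a) := by
    rw [div_mul_eq_mul_div, one_mul, le_div_iff₀ (by positivity)]
    linarith
  linarith

/-- divisor bound: `τ(n) ≤ C n^ε`. -/
theorem divisor_bound (ε : ℝ) (hε : 0 < ε) : ∃ C : ℝ, 1 ≤ C ∧ ∀ n : ℕ, n ≠ 0 →
    (n.divisors.card : ℝ) ≤ C * (n:ℝ) ^ ε := by
  classical
  obtain ⟨C, hC1, hC⟩ := local_small ε hε
  obtain ⟨P, hP⟩ := exists_nat_gt ((2:ℝ) ^ (1 / ε))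
  refine ⟨C ^ P, one_le_pow₀ hC1, fun n hn => ?_⟩
  rw [Nat.card_divisors hn]
  have hfac : (n:ℝ) ^ ε = ∏ p ∈ n.primeFactors, ((p:ℝ) ^ (n.factorization p)) ^ ε := by
    conv_lhs => rw [← Nat.factorization_prod_pow_eq_self hn]
    rw [Nat.prod_factorization_eq_prod_primeFactors]
    push_cast
    rw [← Real.finset_prod_rpow _ _ (fun p _ => by positivity)]
  rw [hfac]
  push_cast
  have hCc : ∏ p ∈ n.primeFactors, (if p < P then C else 1) ≤ C ^ P := by
    rw [prod_ite]
    simp only [prod_const_one, mul_one, prod_const]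
    apply pow_le_pow_right₀ hC1
    calc ((n.primeFactors.filter fun p => p < P).card) ≤ (range P).card := by
          apply card_le_card
          intro p hp
          rw [mem_filter] at hp
          exact mem_range.2 hp.2
      _ = P := card_range P
  calc ∏ p ∈ n.primeFactors, ((n.factorization p : ℝ) + 1)
      ≤ ∏ p ∈ n.primeFactors, ((if p < P then C else 1) * ((p:ℝ) ^ (n.factorization p)) ^ ε) := by
        apply prod_le_prod
        · intro p _; positivity
        · intro p hp
          have hpp := Nat.prime_of_mem_primeFactors hp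
          have hp2 : (2:ℝ) ≤ p := by exact_mod_cast hpp.two_le
          have hp0 : (0:ℝ) < p := by linarith
          have e1 : ((p:ℝ) ^ (n.factorization p)) ^ ε = (p:ℝ) ^ (ε * (n.factorization p : ℝ)) := by
            rw [← Real.rpow_natCast, ← Real.rpow_mul hp0.le, mul_comm]
          rw [e1]
          split_ifs with h
          · refine (hC _).trans ?_
            apply mul_le_mul_of_nonneg_left _ (by linarith)
            apply Real.rpow_le_rpow (by norm_num) hp2 (by positivity)
          · rw [one_mul]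
            push Not at h
            have hPp : (2:ℝ) ^ (1/ε) ≤ p := hP.le.trans (by exact_mod_cast h)
            have h2 : (2:ℝ) ≤ (p:ℝ) ^ ε := by
              calc (2:ℝ) = ((2:ℝ) ^ (1/ε)) ^ ε := by
                    rw [← Real.rpow_mul (by norm_num), one_div, inv_mul_cancel₀ hε.ne',
                      Real.rpow_one]
                _ ≤ (p:ℝ) ^ ε := Real.rpow_le_rpow (by positivity) hPp hε.le
            rw [Real.rpow_mul hp0.le, Real.rpow_natCast]
            have h3 : (2:ℝ) ^ (n.factorization p) ≤ ((p:ℝ) ^ ε) ^ (n.factorization p) :=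
              pow_le_pow_left₀ (by norm_num) h2 _
            refine le_trans ?_ h3
            have : n.factorization p + 1 ≤ 2 ^ (n.factorization p) := Nat.lt_two_pow_self
            exact_mod_cast this
    _ = (∏ p ∈ n.primeFactors, (if p < P then C else 1)) *
          ∏ p ∈ n.primeFactors, ((p:ℝ) ^ (n.factorization p)) ^ ε := prod_mul_distrib
    _ ≤ C ^ P * ∏ p ∈ n.primeFactors, ((p:ℝ) ^ (n.factorization p)) ^ ε := by
        apply mul_le_mul_of_nonneg_right hCc
        exact prod_nonneg fun p _ => by positivity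

end Pool.Agent.H93.BT
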