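import Pool.Agent.H93.BT.Pair
import Pool.Agent.H93.BT.Divb

/-! (T4): collision number of the typical strings, summed over frequencies. -/

namespace Pool.Agent.H93.BT

open Finset

lemma XV_lin (k : ℤ × ℤ) {r : ℕ} (S : Fin r → Fin 3) :
    XV k S = k.1 * XV (1,0) S + k.2 * XV (0,1) S := by
  unfold XV kv
  rw [mul_sum, mul_sum, ← sum_add_distrib]
  apply sum_congr rfl
  intro i _
  ring

lemma XV_inj : ∀ (r : ℕ) (S S' : Fin r → Fin 3), XV (1,0) S = XV (1,0) S' →
    XV (0,1) S = XV (0,1) S' → S = S' := by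
  intro r
  induction r with
  | zero => intro S S' _ _; funext i; exact Fin.elim0 i
  | succ r ih =>
    intro S S' h1 h2
    have e : S = Fin.cons (S 0) (Fin.tail S) := (Fin.cons_self_tail S).symm
    have e' : S' = Fin.cons (S' 0) (Fin.tail S') := (Fin.cons_self_tail S').symm
    rw [e, e', XV_cons, XV_cons] at h1 h2
    have hb : ∀ s s' : Fin 3, ∀ x x' y y' : ℤ, kv (1,0) s + 2 * x = kv (1,0) s' + 2 * x' →
        kv (0,1) s + 2 * y = kv (0,1) s' + 2 * y' → s = s' ∧ x = x' ∧ y = y' := by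
      intro s s' x x' y y' g1 g2
      fin_cases s <;> fin_cases s' <;> simp [kv, nb, ab] at g1 g2 ⊢ <;> omega
    obtain ⟨a, b, c⟩ := hb _ _ _ _ _ _ h1 h2
    have := ih _ _ b c
    rw [e, e', a, this]

lemma XV_a {r : ℕ} (S : Fin r → Fin 3) :
    XV (0,1) S = ∑ i : Fin r, 2 ^ (i:ℕ) * (if aS S i = true then (1:ℤ) else 0) := by
  unfold XV
  apply sum_congr rfl
  intro i _
  congr 1
  unfold aS kv
  have : ∀ s : Fin 3, (0:ℤ) * nb s + 1 * ab s = if decide (s ≠ 0) = true then (1:ℤ) else 0 := by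
    intro s; fin_cases s <;> simp [nb, ab]
  exact this (S i)

/-- value of a bit string -/
def bval {r : ℕ} (A : Fin r → Bool) : ℤ := ∑ i : Fin r, 2 ^ (i:ℕ) * (if A i = true then (1:ℤ) else 0)

lemma bval_bounds {r : ℕ} (A : Fin r → Bool) : 0 ≤ bval A ∧ bval A < 2 ^ r := by
  constructor
  · exact sum_nonneg fun i _ => by positivity
  · have h1 : bval A ≤ ∑ i : Fin r, (2:ℤ) ^ (i:ℕ) := by
      apply sum_le_sum
      intro i _
      split_ifs
      · simp
      · simp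
    have h2 : ∑ i : Fin r, (2:ℤ) ^ (i:ℕ) = 2 ^ r - 1 := by
      rw [Fin.sum_univ_eq_sum_range (fun i => (2:ℤ) ^ i) r]
      have := mul_geom_sum (2:ℤ) r
      linarith
    linarith

/-- multiples of `m` in a symmetric interval -/
lemma mult_count (K m : ℕ) : ((Icc (-(K:ℤ)) K).filter fun x => (m:ℤ) ∣ x).card ≤ 2 * (K / m) + 1 := by
  classical
  have hA : ((Ioc 0 K).filter fun x => m ∣ x).card = K / m := Nat.Ioc_filter_dvd_card_eq_div K m
  have hsub : ((Icc (-(K:ℤ)) K).filter fun x => (m:ℤ) ∣ x) ⊆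
      (((Ioc 0 K).filter fun x => m ∣ x).image (fun x : ℕ => (x:ℤ)) ∪
       ((Ioc 0 K).filter fun x => m ∣ x).image (fun x : ℕ => -(x:ℤ))) ∪ {0} := by
    intro x hx
    rw [mem_filter, mem_Icc] at hx
    rw [mem_union, mem_union, mem_image, mem_image, mem_singleton]
    rcases lt_trichotomy x 0 with h | h | h
    · left; right
      refine ⟨x.natAbs, ?_, by omega⟩
      rw [mem_filter, mem_Ioc]
      refine ⟨by omega, ?_⟩
      exact Int.natCast_dvd.1 hx.2
    · right; exact h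
    · left; left
      refine ⟨x.natAbs, ?_, by omega⟩
      rw [mem_filter, mem_Ioc]
      refine ⟨by omega, ?_⟩
      exact Int.natCast_dvd.1 hx.2
  refine (card_le_card hsub).trans ?_
  refine (card_union_le _ _).trans ?_
  rw [card_singleton]
  have h1 := card_union_le (((Ioc 0 K).filter fun x => m ∣ x).image (fun x : ℕ => (x:ℤ)))
    (((Ioc 0 K).filter fun x => m ∣ x).image (fun x : ℕ => -(x:ℤ)))
  have h2 := card_image_le (s := (Ioc 0 K).filter fun x => m ∣ x) (f := fun x : ℕ => (x:ℤ))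
  have h3 := card_image_le (s := (Ioc 0 K).filter fun x => m ∣ x) (f := fun x : ℕ => -(x:ℤ))
  omega

/-- sum of `gcd(k,D)/k` -/
lemma gcd_sum (K D : ℕ) (hD : D ≠ 0) :
    ∑ k ∈ Ioc 0 K, ((K / (k / Nat.gcd k D) : ℕ) : ℝ) ≤ K * (D.divisors.card * (1 + Real.log K)) := by
  classical
  have h1 : ∀ k ∈ Ioc 0 K, ((K / (k / Nat.gcd k D) : ℕ) : ℝ) ≤
      K * ∑ g ∈ D.divisors, (if g ∣ k then (g:ℝ) / k else 0) := by
    intro k hk
    rw [mem_Ioc] at hk
    have hg : 0 < Nat.gcd k D := Nat.gcd_pos_of_pos_left _ hk.1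
    have hgk : Nat.gcd k D ∣ k := Nat.gcd_dvd_left _ _
    refine (Nat.cast_div_le (α := ℝ)).trans ?_
    rw [Nat.cast_div hgk (by exact_mod_cast hg.ne')]
    rw [div_eq_mul_inv, inv_div]
    apply mul_le_mul_of_nonneg_left _ (by positivity)
    have : (if Nat.gcd k D ∣ k then ((Nat.gcd k D : ℕ):ℝ) / k else 0) ≤
        ∑ g ∈ D.divisors, (if g ∣ k then (g:ℝ) / k else 0) :=
      single_le_sum (f := fun g : ℕ => if g ∣ k then (g:ℝ) / k else 0)
        (fun g _ => by positivity) (Nat.mem_divisors.2 ⟨Nat.gcd_dvd_right _ _, hD⟩)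
    rwa [if_pos hgk] at this
  refine (sum_le_sum h1).trans ?_
  rw [← mul_sum]
  apply mul_le_mul_of_nonneg_left _ (by positivity)
  rw [sum_comm, ← nsmul_eq_mul, ← sum_const]
  apply sum_le_sum
  intro g hg
  have hg0 : 0 < g := Nat.pos_of_mem_divisors hg
  have hH : ∑ j ∈ Ioc 0 K, (1:ℝ) / j ≤ 1 + Real.log K := by
    have := harmonic_le_one_add_log K
    refine le_trans (le_of_eq ?_) this
    rw [harmonic]
    push_cast
    refine sum_nbij' (fun j => j - 1) (fun x => x + 1) ?_ ?_ ?_ ?_ ?_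
    · intro j hj; rw [mem_Ioc] at hj; rw [mem_range]; omega
    · intro x hx; rw [mem_range] at hx; rw [mem_Ioc]; omega
    · intro j hj; rw [mem_Ioc] at hj; omega
    · intro x _; omega
    · intro j hj
      rw [mem_Ioc] at hj
      obtain ⟨x, rfl⟩ : ∃ x, j = x + 1 := ⟨j - 1, by omega⟩
      simp
  refine le_trans ?_ hH
  rw [← sum_filter]
  have hsub : ∀ k ∈ (Ioc 0 K).filter (fun k => g ∣ k), k / g ∈ Ioc 0 K := by
    intro k hk
    rw [mem_filter, mem_Ioc] at hk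
    rw [mem_Ioc]
    refine ⟨Nat.div_pos (Nat.le_of_dvd hk.1.1 hk.2) hg0, (Nat.div_le_self _ _).trans hk.1.2⟩
  calc ∑ k ∈ (Ioc 0 K).filter (fun k => g ∣ k), (g:ℝ) / k
      = ∑ k ∈ (Ioc 0 K).filter (fun k => g ∣ k), (1:ℝ) / ((k / g : ℕ) : ℝ) := by
        apply sum_congr rfl
        intro k hk
        rw [mem_filter, mem_Ioc] at hk
        rw [Nat.cast_div hk.2 (by exact_mod_cast hg0.ne'), one_div, inv_div]
    _ = ∑ j ∈ ((Ioc 0 K).filter (fun k => g ∣ k)).image (fun k => k / g), (1:ℝ) / (j:ℝ) := by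
        rw [sum_image]
        intro a ha b hb hab
        simp only [coe_filter, mem_Ioc, Set.mem_ofPred_eq] at ha hb
        obtain ⟨x, hx⟩ := ha.2
        obtain ⟨y, hy⟩ := hb.2
        simp only [hx, hy, Nat.mul_div_cancel_left _ hg0] at hab
        rw [hx, hy, hab]
    _ ≤ ∑ j ∈ Ioc 0 K, (1:ℝ) / j := by
        apply sum_le_sum_of_subset_of_nonneg
        · intro j hj
          obtain ⟨k, hk, rfl⟩ := mem_image.1 hj
          exact hsub k hk
        · intro j _ _; positivity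

/-- number of pairs `(k₁,k₂)` in a box with `k₁ ≠ 0`, `k₁ ∣ k₂ d`. -/
lemma dvd_count (K : ℕ) (d : ℤ) (hd : d ≠ 0) :
    (((Icc (-(K:ℤ)) K ×ˢ Icc (-(K:ℤ)) K).filter fun k => k.1 ≠ 0 ∧ k.1 ∣ k.2 * d).card : ℝ) ≤
      2 * K + 4 * K * (d.natAbs.divisors.card * (1 + Real.log K)) := by
  classical
  have hD : d.natAbs ≠ 0 := Int.natAbs_ne_zero.2 hd
  -- fibre over k1
  have hfib : ∀ k1 : ℤ, k1 ≠ 0 → ((Icc (-(K:ℤ)) K).filter fun k2 => k1 ∣ k2 * d).card ≤
      2 * (K / (k1.natAbs / Nat.gcd k1.natAbs d.natAbs)) + 1 := by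
    intro k1 hk1
    refine le_trans (card_le_card ?_) (mult_count K (k1.natAbs / Nat.gcd k1.natAbs d.natAbs))
    intro x hx
    rw [mem_filter] at hx ⊢
    refine ⟨hx.1, ?_⟩
    have h1 : k1.natAbs ∣ x.natAbs * d.natAbs := by
      rw [← Int.natAbs_mul]; exact Int.natAbs_dvd_natAbs.2 hx.2
    have hg : 0 < Nat.gcd k1.natAbs d.natAbs := Nat.gcd_pos_of_pos_left _ (Int.natAbs_pos.2 hk1)
    have hco : Nat.Coprime (k1.natAbs / Nat.gcd k1.natAbs d.natAbs) (d.natAbs / Nat.gcd k1.natAbs d.natAbs) :=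
      Nat.coprime_div_gcd_div_gcd hg
    have h2 : (k1.natAbs / Nat.gcd k1.natAbs d.natAbs) ∣ x.natAbs * (d.natAbs / Nat.gcd k1.natAbs d.natAbs) := by
      obtain ⟨u, hu⟩ := Nat.gcd_dvd_left k1.natAbs d.natAbs
      obtain ⟨v, hv⟩ := Nat.gcd_dvd_right k1.natAbs d.natAbs
      set g := Nat.gcd k1.natAbs d.natAbs with hgdef
      have e1 : k1.natAbs / g = u := by rw [hu]; exact Nat.mul_div_cancel_left _ hg
      have e2 : d.natAbs / g = v := by rw [hv]; exact Nat.mul_div_cancel_left _ hg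
      rw [e1, e2]
      rw [hu, hv] at h1
      have : g * u ∣ g * (x.natAbs * v) := by
        have e3 : x.natAbs * (g * v) = g * (x.natAbs * v) := by ring
        rwa [e3] at h1
      exact Nat.dvd_of_mul_dvd_mul_left hg this
    exact Int.natCast_dvd.2 (hco.dvd_of_dvd_mul_right h2)
  have hcard : ((Icc (-(K:ℤ)) K ×ˢ Icc (-(K:ℤ)) K).filter fun k => k.1 ≠ 0 ∧ k.1 ∣ k.2 * d).card
      = ∑ k1 ∈ (Icc (-(K:ℤ)) K).filter (fun x => x ≠ 0), ((Icc (-(K:ℤ)) K).filter fun k2 => k1 ∣ k2 * d).card := by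
    rw [card_filter, sum_product, sum_filter]
    apply sum_congr rfl
    intro k1 _
    by_cases h : k1 = 0
    · simp [h]
    · rw [if_pos h, card_filter]
      apply sum_congr rfl
      intro k2 _
      simp only [ne_eq, h, not_false_eq_true, true_and]
  rw [hcard]
  push_cast
  let f : ℕ → ℝ := fun k => 2 * ((K / (k / Nat.gcd k d.natAbs) : ℕ) : ℝ) + 1
  have h1 : ∑ k1 ∈ (Icc (-(K:ℤ)) K).filter (fun x => x ≠ 0), (((Icc (-(K:ℤ)) K).filter fun k2 => k1 ∣ k2 * d).card : ℝ)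
      ≤ ∑ k1 ∈ (Icc (-(K:ℤ)) K).filter (fun x => x ≠ 0), f k1.natAbs := by
    apply sum_le_sum
    intro k1 hk1
    rw [mem_filter] at hk1
    have := hfib k1 hk1.2
    simp only [f]
    exact_mod_cast this
  have hmaps : ∀ k1 ∈ (Icc (-(K:ℤ)) K).filter (fun x => x ≠ 0), k1.natAbs ∈ Ioc 0 K := by
    intro k1 hk1
    rw [mem_filter, mem_Icc] at hk1
    rw [mem_Ioc]
    omega
  have h2 : ∑ k1 ∈ (Icc (-(K:ℤ)) K).filter (fun x => x ≠ 0), f k1.natAbs ≤ ∑ k ∈ Ioc 0 K, 2 * f k := by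
    rw [← sum_fiberwise_of_maps_to hmaps]
    apply sum_le_sum
    intro k _
    have hle : (((Icc (-(K:ℤ)) K).filter (fun x => x ≠ 0)).filter fun x => x.natAbs = k).card ≤ 2 := by
      refine le_trans (card_le_card (t := {(k:ℤ), -(k:ℤ)}) ?_) card_le_two
      intro x hx
      rw [mem_filter] at hx
      rw [mem_insert, mem_singleton]
      have := hx.2
      omega
    have hf0 : 0 ≤ f k := by simp only [f]; positivity
    rw [sum_congr rfl (g := fun _ => f k) (fun x hx => by rw [(mem_filter.1 hx).2]), sum_const, nsmul_eq_mul]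
    exact mul_le_mul_of_nonneg_right (by exact_mod_cast hle) hf0
  have h3 : ∑ k ∈ Ioc 0 K, 2 * f k = 2 * K + 4 * ∑ k ∈ Ioc 0 K, ((K / (k / Nat.gcd k d.natAbs) : ℕ) : ℝ) := by
    simp only [f]
    rw [← mul_sum, sum_add_distrib, ← mul_sum]
    simp only [sum_const, Nat.card_Ioc, Nat.sub_zero, nsmul_eq_mul, mul_one]
    ring
  have h4 := gcd_sum K d.natAbs hD
  linarith

end Pool.Agent.H93.BT
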