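import Pool.Agent.H93.BT.Coll

/-! (T4): the theorem. -/

namespace Pool.Agent.H93.BT

open Finset

/-- frequencies in a box -/
noncomputable def box (K : ℕ) : Finset (ℤ × ℤ) := (Icc (-(K:ℤ)) K ×ˢ Icc (-(K:ℤ)) K).filter fun k => k ≠ 0

lemma cnt_sum {r : ℕ} (S : Fin r → Fin 3) : cnt 0 S + cnt 1 S + cnt 2 S = r := by
  classical
  have h := card_eq_sum_card_fiberwise (s := (univ : Finset (Fin r))) (t := (univ : Finset (Fin 3)))
    (f := S) (fun _ _ => by simp)
  rw [Fin.sum_univ_three, card_univ, Fintype.card_fin] at h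
  exact h.symm

lemma cnt_aS {r : ℕ} (S : Fin r → Fin 3) :
    cnt 0 S + (univ.filter fun i => aS S i = true).card = r := by
  classical
  have h1 : (univ.filter fun i => aS S i = true) = univ.filter (fun i => ¬ S i = 0) := by
    apply filter_congr; intro i _; simp [aS]
  rw [h1]
  unfold cnt
  rw [card_filter_add_card_filter_not]
  simp

theorem coll (ε : ℝ) (hε : 0 ≤ ε) (r K : ℕ) (T : ℝ) (hT0' : 0 ≤ T)
    (hT : ∀ n : ℕ, n ≠ 0 → n < 2 ^ r → (n.divisors.card : ℝ) ≤ T) :
    ∑ k ∈ box K, (((TQ ε r ×ˢ TQ ε r).filter fun p => XV k p.1 = XV k p.2).card : ℝ) ≤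
      (2 * K + 1) ^ 2 * (TQ ε r).card + (2 * K + 1) * ((TQ ε r).card * (2:ℝ) ^ ((h0 + 4 * ε) * r))
        + (2 * K + 4 * K * (T * (1 + Real.log K))) * (13 ^ r * (2:ℝ) ^ (-((3 - 8 * ε) / 2 * r))) := by
  classical
  have hlogK : 0 ≤ Real.log K := Real.log_natCast_nonneg K
  set Q := TQ ε r with hQ
  let VN : (Fin r → Fin 3) × (Fin r → Fin 3) → ℤ := fun p => XV (1,0) p.1 - XV (1,0) p.2
  let Va : (Fin r → Fin 3) × (Fin r → Fin 3) → ℤ := fun p => XV (0,1) p.1 - XV (0,1) p.2
  have hcond : ∀ k : ℤ × ℤ, ∀ p : (Fin r → Fin 3) × (Fin r → Fin 3), XV k p.1 = XV k p.2 ↔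
      k.1 * VN p + k.2 * Va p = 0 := by
    intro k p
    rw [XV_lin k p.1, XV_lin k p.2]
    simp only [VN, Va]
    constructor <;> intro h <;> linarith
  -- pointwise bound
  have hpt : ∀ k ∈ box K, ∀ p : (Fin r → Fin 3) × (Fin r → Fin 3),
      (if XV k p.1 = XV k p.2 then (1:ℝ) else 0) ≤
        (if p.1 = p.2 then 1 else 0) + (if Va p = 0 ∧ k.1 = 0 then 1 else 0) +
        (if Va p ≠ 0 ∧ (k.1 ≠ 0 ∧ k.1 ∣ k.2 * Va p) ∧ VN p = -(k.2 * Va p) / k.1 then 1 else 0) := by
    intro k hk p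
    have hk0 : k ≠ 0 := (mem_filter.1 hk).2
    by_cases h : XV k p.1 = XV k p.2
    · rw [if_pos h]
      have h' := (hcond k p).1 h
      by_cases hd : Va p = 0
      · by_cases h1 : k.1 = 0
        · rw [if_pos (⟨hd, h1⟩ : Va p = 0 ∧ k.1 = 0)]
          have : (0:ℝ) ≤ (if p.1 = p.2 then 1 else 0) := by split_ifs <;> norm_num
          have : (0:ℝ) ≤ (if Va p ≠ 0 ∧ (k.1 ≠ 0 ∧ k.1 ∣ k.2 * Va p) ∧ VN p = -(k.2 * Va p) / k.1 then 1 else 0) := by
            split_ifs <;> norm_num
          linarith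
        · have hN : VN p = 0 := by
            rw [hd, mul_zero, add_zero] at h'
            exact (mul_eq_zero.1 h').resolve_left h1
          have hpp : p.1 = p.2 := XV_inj r p.1 p.2 (by simp only [VN] at hN; linarith) (by simp only [Va] at hd; linarith)
          rw [if_pos hpp]
          have : (0:ℝ) ≤ (if Va p = 0 ∧ k.1 = 0 then 1 else 0) := by split_ifs <;> norm_num
          have : (0:ℝ) ≤ (if Va p ≠ 0 ∧ (k.1 ≠ 0 ∧ k.1 ∣ k.2 * Va p) ∧ VN p = -(k.2 * Va p) / k.1 then 1 else 0) := by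
            split_ifs <;> norm_num
          linarith
      · have h1 : k.1 ≠ 0 := by
          intro h1
          rw [h1, zero_mul, zero_add] at h'
          have h2 := (mul_eq_zero.1 h').resolve_right hd
          apply hk0
          ext
          · simpa using h1
          · simpa using h2
        have e1 : -(k.2 * Va p) = k.1 * VN p := by linarith
        have hdv : k.1 ∣ k.2 * Va p := by
          have : k.1 ∣ -(k.2 * Va p) := ⟨VN p, e1⟩
          exact (dvd_neg).1 this
        have hq : VN p = -(k.2 * Va p) / k.1 := by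
          rw [e1, Int.mul_ediv_cancel_left _ h1]
        rw [if_pos (⟨hd, ⟨h1, hdv⟩, hq⟩ : Va p ≠ 0 ∧ (k.1 ≠ 0 ∧ k.1 ∣ k.2 * Va p) ∧ VN p = -(k.2 * Va p) / k.1)]
        have : (0:ℝ) ≤ (if p.1 = p.2 then 1 else 0) := by split_ifs <;> norm_num
        have : (0:ℝ) ≤ (if Va p = 0 ∧ k.1 = 0 then 1 else 0) := by split_ifs <;> norm_num
        linarith
    · rw [if_neg h]
      have : (0:ℝ) ≤ (if p.1 = p.2 then 1 else 0) := by split_ifs <;> norm_num
      have : (0:ℝ) ≤ (if Va p = 0 ∧ k.1 = 0 then 1 else 0) := by split_ifs <;> norm_num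
      have : (0:ℝ) ≤ (if Va p ≠ 0 ∧ (k.1 ≠ 0 ∧ k.1 ∣ k.2 * Va p) ∧ VN p = -(k.2 * Va p) / k.1 then 1 else 0) := by
        split_ifs <;> norm_num
      linarith
  have hbox : ((box K).card : ℝ) ≤ (2 * K + 1) ^ 2 := by
    have : (box K).card ≤ (2 * K + 1) ^ 2 := by
      refine (card_filter_le _ _).trans ?_
      rw [card_product, Int.card_Icc]
      have : ((K:ℤ) + 1 - -(K:ℤ)).toNat = 2 * K + 1 := by omega
      rw [this, sq]
    exact_mod_cast this
  have hstep : ∑ k ∈ box K, (((Q ×ˢ Q).filter fun p => XV k p.1 = XV k p.2).card : ℝ) ≤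
      ∑ k ∈ box K, ∑ p ∈ Q ×ˢ Q, (if p.1 = p.2 then (1:ℝ) else 0) +
      ∑ k ∈ box K, ∑ p ∈ Q ×ˢ Q, (if Va p = 0 ∧ k.1 = 0 then (1:ℝ) else 0) +
      ∑ k ∈ box K, ∑ p ∈ Q ×ˢ Q,
        (if Va p ≠ 0 ∧ (k.1 ≠ 0 ∧ k.1 ∣ k.2 * Va p) ∧ VN p = -(k.2 * Va p) / k.1 then (1:ℝ) else 0) := by
    rw [← sum_add_distrib, ← sum_add_distrib]
    apply sum_le_sum
    intro k hk
    rw [← sum_add_distrib, ← sum_add_distrib, card_filter]
    push_cast
    apply sum_le_sum
    intro p _
    exact hpt k hk p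
  refine hstep.trans ?_
  have hQ0 : (0:ℝ) ≤ Q.card := by positivity
  -- first term
  have t1 : ∑ k ∈ box K, ∑ p ∈ Q ×ˢ Q, (if p.1 = p.2 then (1:ℝ) else 0) ≤ (2 * K + 1) ^ 2 * Q.card := by
    have : ∑ p ∈ Q ×ˢ Q, (if p.1 = p.2 then (1:ℝ) else 0) = Q.card := by
      rw [sum_product]
      rw [sum_congr rfl (g := fun _ => (1:ℝ)) (fun x hx => by rw [sum_ite_eq]; simp [hx])]
      simp
    rw [this, sum_const, nsmul_eq_mul]
    exact mul_le_mul_of_nonneg_right hbox hQ0
  -- second term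
  have t2 : ∑ k ∈ box K, ∑ p ∈ Q ×ˢ Q, (if Va p = 0 ∧ k.1 = 0 then (1:ℝ) else 0) ≤
      (2 * K + 1) * (Q.card * (2:ℝ) ^ ((h0 + 4 * ε) * r)) := by
    have e1 : ∑ p ∈ Q ×ˢ Q, (if Va p = 0 then (1:ℝ) else 0) ≤ Q.card * (2:ℝ) ^ ((h0 + 4 * ε) * r) := by
      rw [sum_product_right, ← nsmul_eq_mul, ← sum_const]
      apply sum_le_sum
      intro S' _
      have := fibre ε hε r 1 (0,1) (by simp) (by simp) (XV (0,1) S')
      refine le_trans (le_of_eq ?_) this
      rw [card_filter]
      push_cast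
      apply sum_congr rfl
      intro S _
      simp only [Va, sub_eq_zero]
    have e2 : ∀ k ∈ box K, ∑ p ∈ Q ×ˢ Q, (if Va p = 0 ∧ k.1 = 0 then (1:ℝ) else 0) =
        if k.1 = 0 then ∑ p ∈ Q ×ˢ Q, (if Va p = 0 then (1:ℝ) else 0) else 0 := by
      intro k _
      by_cases h : k.1 = 0
      · simp [h]
      · simp [h]
    rw [sum_congr rfl e2, ← sum_filter, sum_const, nsmul_eq_mul]
    have e3 : (((box K).filter fun k => k.1 = 0).card : ℝ) ≤ 2 * K + 1 := by
      have : ((box K).filter fun k => k.1 = 0).card ≤ 2 * K + 1 := by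
        have hinj : Set.InjOn (fun k : ℤ × ℤ => k.2) ((box K).filter fun k => k.1 = 0) := by
          intro a ha b hb hab
          have ha' := (mem_filter.1 ha).2
          have hb' := (mem_filter.1 hb).2
          ext
          · rw [ha', hb']
          · exact hab
        have h2 := card_le_card_of_injOn (t := Icc (-(K:ℤ)) K) (fun k : ℤ × ℤ => k.2)
          (fun k hk => by
            have := (mem_filter.1 (mem_filter.1 hk).1).1
            exact (mem_product.1 this).2) hinj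
        rw [Int.card_Icc] at h2
        omega
      exact_mod_cast this
    have e4 : (0:ℝ) ≤ ∑ p ∈ Q ×ˢ Q, (if Va p = 0 then (1:ℝ) else 0) :=
      sum_nonneg fun p _ => by split_ifs <;> norm_num
    calc _ ≤ (2 * (K:ℝ) + 1) * ∑ p ∈ Q ×ˢ Q, (if Va p = 0 then (1:ℝ) else 0) :=
          mul_le_mul_of_nonneg_right e3 e4
      _ ≤ _ := mul_le_mul_of_nonneg_left e1 (by positivity)
  -- third term
  have t3 : ∑ k ∈ box K, ∑ p ∈ Q ×ˢ Q,
        (if Va p ≠ 0 ∧ (k.1 ≠ 0 ∧ k.1 ∣ k.2 * Va p) ∧ VN p = -(k.2 * Va p) / k.1 then (1:ℝ) else 0) ≤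
      (2 * K + 4 * K * (T * (1 + Real.log K))) * (13 ^ r * (2:ℝ) ^ (-((3 - 8 * ε) / 2 * r))) := by
    rw [sum_comm]
    let tgt : Finset ((Fin r → Bool) × (Fin r → Bool)) :=
      (univ : Finset ((Fin r → Bool) × (Fin r → Bool))).filter (fun p =>
      (3 - 8 * ε) / 2 * r ≤ ((univ.filter fun i => p.1 i = true).card : ℝ) + (univ.filter fun i => p.2 i = true).card)
    have hmaps : ∀ p ∈ Q ×ˢ Q, (aS p.1, aS p.2) ∈ tgt := by
      intro p hp
      rw [mem_product] at hp
      simp only [tgt, mem_filter, mem_univ, true_and]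
      have h1 := (mem_TQ.1 hp.1).1
      have h2 := (mem_TQ.1 hp.2).1
      have c1 := cnt_aS p.1
      have c2 := cnt_aS p.2
      have c1' : (cnt 0 p.1 : ℝ) + ((univ.filter fun i => aS p.1 i = true).card : ℝ) = r := by exact_mod_cast c1
      have c2' : (cnt 0 p.2 : ℝ) + ((univ.filter fun i => aS p.2 i = true).card : ℝ) = r := by exact_mod_cast c2
      linarith
    rw [← sum_fiberwise_of_maps_to hmaps]
    have hfib : ∀ AA ∈ tgt, ∑ p ∈ (Q ×ˢ Q).filter (fun p => (aS p.1, aS p.2) = AA), ∑ k ∈ box K,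
        (if Va p ≠ 0 ∧ (k.1 ≠ 0 ∧ k.1 ∣ k.2 * Va p) ∧ VN p = -(k.2 * Va p) / k.1 then (1:ℝ) else 0) ≤
        (2 * K + 4 * K * (T * (1 + Real.log K))) * (2:ℝ) ^ n11 AA.1 AA.2 := by
      intro AA _
      set d : ℤ := bval AA.1 - bval AA.2 with hd
      have hVa : ∀ p ∈ (Q ×ˢ Q).filter (fun p => (aS p.1, aS p.2) = AA), Va p = d := by
        intro p hp
        have := (mem_filter.1 hp).2
        rw [hd, ← this]
        simp only [Va, XV_a]
        rfl
      have hT0 : 0 ≤ 2 * (K:ℝ) + 4 * K * (T * (1 + Real.log K)) := by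
        positivity
      by_cases hd0 : d = 0
      · have : ∑ p ∈ (Q ×ˢ Q).filter (fun p => (aS p.1, aS p.2) = AA), ∑ k ∈ box K,
          (if Va p ≠ 0 ∧ (k.1 ≠ 0 ∧ k.1 ∣ k.2 * Va p) ∧ VN p = -(k.2 * Va p) / k.1 then (1:ℝ) else 0) = 0 := by
          apply sum_eq_zero
          intro p hp
          apply sum_eq_zero
          intro k _
          rw [if_neg]
          rw [hVa p hp]
          intro h
          exact h.1 hd0
        rw [this]
        positivity
      · rw [sum_comm]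
        have hinner : ∀ k ∈ box K, ∑ p ∈ (Q ×ˢ Q).filter (fun p => (aS p.1, aS p.2) = AA),
            (if Va p ≠ 0 ∧ (k.1 ≠ 0 ∧ k.1 ∣ k.2 * Va p) ∧ VN p = -(k.2 * Va p) / k.1 then (1:ℝ) else 0) ≤
            if k.1 ≠ 0 ∧ k.1 ∣ k.2 * d then (2:ℝ) ^ n11 AA.1 AA.2 else 0 := by
          intro k _
          by_cases h : k.1 ≠ 0 ∧ k.1 ∣ k.2 * d
          · rw [if_pos h]
            refine le_trans ?_ (pair_count AA.1 AA.2 (-(k.2 * d) / k.1))
            rw [card_filter]
            push_cast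
            rw [sum_filter]
            refine (sum_le_sum (g := fun p : (Fin r → Fin 3) × (Fin r → Fin 3) => (if aS p.1 = AA.1 ∧ aS p.2 = AA.2 ∧
              XV (1,0) p.1 - XV (1,0) p.2 = -(k.2 * d) / k.1 then (1:ℝ) else 0)) ?_).trans ?_
            · intro p hp
              by_cases g : (aS p.1, aS p.2) = AA
              · rw [if_pos g]
                have hv := hVa p (mem_filter.2 ⟨hp, g⟩)
                rw [hv]
                have g1 : aS p.1 = AA.1 := by rw [← g]
                have g2 : aS p.2 = AA.2 := by rw [← g]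
                by_cases g3 : VN p = -(k.2 * d) / k.1
                · rw [if_pos (show aS p.1 = AA.1 ∧ aS p.2 = AA.2 ∧
                    XV (1,0) p.1 - XV (1,0) p.2 = -(k.2 * d) / k.1 from ⟨g1, g2, g3⟩)]
                  split_ifs <;> norm_num
                · rw [if_neg (show ¬ (d ≠ 0 ∧ (k.1 ≠ 0 ∧ k.1 ∣ k.2 * d) ∧ VN p = -(k.2 * d) / k.1) from
                    fun hh => g3 hh.2.2)]
                  split_ifs <;> norm_num
              · rw [if_neg g]
                split_ifs <;> norm_num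
            · apply sum_le_sum_of_subset_of_nonneg (subset_univ _)
              intro p _ _
              split_ifs <;> norm_num
          · rw [if_neg h]
            apply le_of_eq
            apply sum_eq_zero
            intro p hp
            rw [if_neg]
            rw [hVa p hp]
            intro hh
            exact h hh.2.1
        refine (sum_le_sum hinner).trans ?_
        rw [← sum_filter, sum_const, nsmul_eq_mul]
        apply mul_le_mul_of_nonneg_right _ (by positivity)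
        have hdv := dvd_count K d hd0
        have hsub : (box K).filter (fun k => k.1 ≠ 0 ∧ k.1 ∣ k.2 * d) ⊆
            (Icc (-(K:ℤ)) K ×ˢ Icc (-(K:ℤ)) K).filter (fun k => k.1 ≠ 0 ∧ k.1 ∣ k.2 * d) := by
          apply filter_subset_filter
          exact filter_subset _ _
        have h1 : (((box K).filter (fun k => k.1 ≠ 0 ∧ k.1 ∣ k.2 * d)).card : ℝ) ≤
          ((Icc (-(K:ℤ)) K ×ˢ Icc (-(K:ℤ)) K).filter (fun k => k.1 ≠ 0 ∧ k.1 ∣ k.2 * d)).card := by
          exact_mod_cast card_le_card hsub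
        have hb1 := bval_bounds AA.1
        have hb2 := bval_bounds AA.2
        have hdlt : d.natAbs < 2 ^ r := by
          have : (d.natAbs : ℤ) < 2 ^ r := by
            rw [Int.natCast_natAbs]
            rw [abs_lt]; constructor <;> linarith
          exact_mod_cast this
        have hTd := hT d.natAbs (Int.natAbs_ne_zero.2 hd0) hdlt
        have h2 : (2:ℝ) * K + 4 * K * (d.natAbs.divisors.card * (1 + Real.log K)) ≤
            2 * K + 4 * K * (T * (1 + Real.log K)) := by
          have : (d.natAbs.divisors.card : ℝ) * (1 + Real.log K) ≤ T * (1 + Real.log K) :=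
            mul_le_mul_of_nonneg_right hTd (by linarith)
          have := mul_le_mul_of_nonneg_left this (show (0:ℝ) ≤ 4 * K by positivity)
          linarith
        linarith
    refine (sum_le_sum hfib).trans ?_
    rw [← mul_sum]
    have hT0 : 0 ≤ 2 * (K:ℝ) + 4 * K * (T * (1 + Real.log K)) := by positivity
    exact mul_le_mul_of_nonneg_left (sum_n11 r _) hT0
  linarith

end Pool.Agent.H93.BT
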