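import Pool.Agent.H93.BT.Tree

/-! (T2): fibres of `k.X` on typical strings. -/

namespace Pool.Agent.H93.BT

open Finset

/-- the exponent `(3/4) log_2 3 - 1/2` -/
noncomputable def h0 : ℝ := 3 / 4 * (Real.log 3 / Real.log 2) - 1 / 2

/-- strings with typical symbol counts (one-sided) -/
noncomputable def TQ (ε : ℝ) (r : ℕ) : Finset (Fin r → Fin 3) := by
  classical
  exact univ.filter fun S => (cnt 0 S : ℝ) ≤ (1 / 4 + 2 * ε) * r ∧ (cnt 1 S : ℝ) ≤ (1 / 4 + ε) * r ∧
    (cnt 2 S : ℝ) ≤ (1 / 2 + ε) * r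

lemma mem_TQ {ε : ℝ} {r : ℕ} {S : Fin r → Fin 3} : S ∈ TQ ε r ↔
    (cnt 0 S : ℝ) ≤ (1 / 4 + 2 * ε) * r ∧ (cnt 1 S : ℝ) ≤ (1 / 4 + ε) * r ∧
    (cnt 2 S : ℝ) ≤ (1 / 2 + ε) * r := by
  unfold TQ; simp

lemma log23 : 0 < Real.log 2 := Real.log_pos (by norm_num)

lemma log3_lower : 4 / 3 * Real.log 2 ≤ Real.log 3 := by
  have : Real.log ((2:ℝ) ^ 4) ≤ Real.log ((3:ℝ) ^ 3) := Real.log_le_log (by norm_num) (by norm_num)
  rw [Real.log_pow, Real.log_pow] at this
  push_cast at this; linarith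

lemma log3_upper : Real.log 3 ≤ 5 / 3 * Real.log 2 := by
  have : Real.log ((3:ℝ) ^ 3) ≤ Real.log ((2:ℝ) ^ 5) := Real.log_le_log (by norm_num) (by norm_num)
  rw [Real.log_pow, Real.log_pow] at this
  push_cast at this; linarith

lemma h0_mul : h0 * Real.log 2 = 3 / 4 * Real.log 3 - 1 / 2 * Real.log 2 := by
  unfold h0
  have := log23.ne'
  field_simp

/-- the lower bound `2^(-(h0+4ε) r)` for a product of weights, in log form -/
lemma weight_lower {r : ℕ} (ε : ℝ) (ρ : Fin 3 → ℝ) (hρ : ∀ s, 0 < ρ s) (S : Fin r → Fin 3)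
    (h : -((h0 + 4 * ε) * r * Real.log 2) ≤
      cnt 0 S * Real.log (ρ 0) + cnt 1 S * Real.log (ρ 1) + cnt 2 S * Real.log (ρ 2)) :
    (2:ℝ) ^ (-((h0 + 4 * ε) * r)) ≤ ∏ i, ρ (S i) := by
  rw [prod_cnt]
  rw [← Real.exp_log (show 0 < ρ 0 ^ cnt 0 S * ρ 1 ^ cnt 1 S * ρ 2 ^ cnt 2 S by
    have := hρ 0; have := hρ 1; have := hρ 2; positivity)]
  rw [Real.rpow_def_of_pos (by norm_num)]
  apply Real.exp_le_exp.2
  have h00 := (pow_pos (hρ 0) (cnt 0 S)).ne'
  have h11 := (pow_pos (hρ 1) (cnt 1 S)).ne'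
  have h22 := (pow_pos (hρ 2) (cnt 2 S)).ne'
  rw [Real.log_mul (mul_ne_zero h00 h11) h22, Real.log_mul h00 h11, Real.log_pow, Real.log_pow,
    Real.log_pow]
  linarith

lemma kv_zero (k : ℤ × ℤ) : kv k 0 = 0 := by simp [kv, nb, ab]
lemma kv_one (k : ℤ × ℤ) : kv k 1 = k.2 := by simp [kv, nb, ab]
lemma kv_two (k : ℤ × ℤ) : kv k 2 = k.1 + k.2 := by simp [kv, nb, ab]

lemma fibre_odd (k : ℤ × ℤ) (hk : ¬ (2 ∣ k.1 ∧ 2 ∣ k.2)) (ε : ℝ) (hε : 0 ≤ ε) (r : ℕ) (t : ℤ) :
    (((TQ ε r).filter fun S => XV k S = t).card : ℝ) ≤ (2:ℝ) ^ ((h0 + 4 * ε) * r) := by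
  classical
  have hl2 := log23
  have hlo := log3_lower
  have hup := log3_upper
  have hh := h0_mul
  have hr : (0:ℝ) ≤ r := by positivity
  have hinv : ((2:ℝ) ^ (-((h0 + 4 * ε) * r)))⁻¹ = (2:ℝ) ^ ((h0 + 4 * ε) * r) := by
    rw [Real.rpow_neg (by norm_num), inv_inv]
  rw [← hinv]
  have hl13 : Real.log (1/3 : ℝ) = - Real.log 3 := by rw [one_div, Real.log_inv]
  have hl23 : Real.log (2/3 : ℝ) = Real.log 2 - Real.log 3 := by
    rw [Real.log_div (by norm_num) (by norm_num)]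
  have hl12 : Real.log (1/2 : ℝ) = - Real.log 2 := by rw [one_div, Real.log_inv]
  have hrε : 0 ≤ r * ε := mul_nonneg hr hε
  rcases Int.even_or_odd k.1 with h1 | h1 <;> rcases Int.even_or_odd k.2 with h2 | h2
  · exact absurd ⟨h1.two_dvd, h2.two_dvd⟩ hk
  · -- k = (even, odd)
    obtain ⟨a, ha⟩ := h1
    obtain ⟨b, hb⟩ := h2
    refine fibre_of_weight k ![1, 1/3, 2/3] ?_ ?_ r t _ _ (Real.rpow_pos_of_pos (by norm_num) _) ?_
    · intro s; fin_cases s <;> simp <;> norm_num
    · intro c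
      rw [Fin.sum_univ_three, kv_zero, kv_one, kv_two, ha, hb]
      by_cases g : (2:ℤ) ∣ c
      · rw [if_pos (by omega), if_neg (by omega), if_neg (by omega)]; simp
      · rw [if_neg (by omega), if_pos (by omega), if_pos (by omega)]; simp; norm_num
    · intro S hS
      rw [mem_TQ] at hS
      apply weight_lower ε _ (by intro s; fin_cases s <;> simp) S
      simp only [Matrix.cons_val_zero, Matrix.cons_val_one, Matrix.cons_val, Real.log_one, mul_zero,
        zero_add, hl13, hl23]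
      have e1 : (cnt 1 S : ℝ) * Real.log 3 ≤ (1 / 4 + ε) * r * Real.log 3 :=
        mul_le_mul_of_nonneg_right hS.2.1 (by linarith)
      have e2 : (cnt 2 S : ℝ) * (Real.log 3 - Real.log 2) ≤ (1 / 2 + ε) * r * (Real.log 3 - Real.log 2) :=
        mul_le_mul_of_nonneg_right hS.2.2 (by linarith)
      have e3 : (r * ε) * (2 * Real.log 3 - Real.log 2) ≤ (r * ε) * (4 * Real.log 2) :=
        mul_le_mul_of_nonneg_left (by linarith) hrε
      have e4 : (h0 + 4 * ε) * r * Real.log 2 = r * (h0 * Real.log 2) + (r * ε) * (4 * Real.log 2) := by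
        ring
      rw [e4, hh]
      nlinarith
  · -- k = (odd, even)
    obtain ⟨a, ha⟩ := h1
    obtain ⟨b, hb⟩ := h2
    refine fibre_of_weight k ![1/2, 1/2, 1] ?_ ?_ r t _ _ (Real.rpow_pos_of_pos (by norm_num) _) ?_
    · intro s; fin_cases s <;> simp
    · intro c
      rw [Fin.sum_univ_three, kv_zero, kv_one, kv_two, ha, hb]
      by_cases g : (2:ℤ) ∣ c
      · rw [if_pos (by omega), if_pos (by omega), if_neg (by omega)]; simp; norm_num
      · rw [if_neg (by omega), if_neg (by omega), if_pos (by omega)]; simp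
    · intro S hS
      rw [mem_TQ] at hS
      apply weight_lower ε _ (by intro s; fin_cases s <;> simp) S
      simp only [Matrix.cons_val_zero, Matrix.cons_val_one, Matrix.cons_val, Real.log_one, mul_zero,
        add_zero, hl12]
      have e1 : (cnt 0 S : ℝ) * Real.log 2 ≤ (1 / 4 + 2 * ε) * r * Real.log 2 :=
        mul_le_mul_of_nonneg_right hS.1 (by linarith)
      have e2 : (cnt 1 S : ℝ) * Real.log 2 ≤ (1 / 4 + ε) * r * Real.log 2 :=
        mul_le_mul_of_nonneg_right hS.2.1 (by linarith)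
      have e3 : 0 ≤ (r * ε) * Real.log 2 := mul_nonneg hrε hl2.le
      have e5 : 0 ≤ r * (3 / 4 * Real.log 3 - Real.log 2) := mul_nonneg hr (by linarith)
      have e4 : (h0 + 4 * ε) * r * Real.log 2 = r * (h0 * Real.log 2) + (r * ε) * (4 * Real.log 2) := by
        ring
      rw [e4, hh]
      nlinarith
  · -- k = (odd, odd)
    obtain ⟨a, ha⟩ := h1
    obtain ⟨b, hb⟩ := h2
    refine fibre_of_weight k ![1/3, 1, 2/3] ?_ ?_ r t _ _ (Real.rpow_pos_of_pos (by norm_num) _) ?_
    · intro s; fin_cases s <;> simp <;> norm_num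
    · intro c
      rw [Fin.sum_univ_three, kv_zero, kv_one, kv_two, ha, hb]
      by_cases g : (2:ℤ) ∣ c
      · rw [if_pos (by omega), if_neg (by omega), if_pos (by omega)]; simp; norm_num
      · rw [if_neg (by omega), if_pos (by omega), if_neg (by omega)]; simp
    · intro S hS
      rw [mem_TQ] at hS
      apply weight_lower ε _ (by intro s; fin_cases s <;> simp) S
      simp only [Matrix.cons_val_zero, Matrix.cons_val_one, Matrix.cons_val, Real.log_one, mul_zero,
        add_zero, hl13, hl23]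
      have e1 : (cnt 0 S : ℝ) * Real.log 3 ≤ (1 / 4 + 2 * ε) * r * Real.log 3 :=
        mul_le_mul_of_nonneg_right hS.1 (by linarith)
      have e2 : (cnt 2 S : ℝ) * (Real.log 3 - Real.log 2) ≤ (1 / 2 + ε) * r * (Real.log 3 - Real.log 2) :=
        mul_le_mul_of_nonneg_right hS.2.2 (by linarith)
      have e3 : (r * ε) * (3 * Real.log 3 - Real.log 2) ≤ (r * ε) * (4 * Real.log 2) :=
        mul_le_mul_of_nonneg_left (by linarith) hrε
      have e4 : (h0 + 4 * ε) * r * Real.log 2 = r * (h0 * Real.log 2) + (r * ε) * (4 * Real.log 2) := by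
        ring
      rw [e4, hh]
      nlinarith

/-- (T2), counting form: fibres of any nonzero frequency on typical strings. -/
theorem fibre (ε : ℝ) (hε : 0 ≤ ε) (r : ℕ) : ∀ (n : ℕ) (k : ℤ × ℤ), k ≠ 0 →
    k.1.natAbs + k.2.natAbs ≤ n → ∀ t : ℤ,
    (((TQ ε r).filter fun S => XV k S = t).card : ℝ) ≤ (2:ℝ) ^ ((h0 + 4 * ε) * r) := by
  classical
  intro n
  induction n with
  | zero =>
    intro k hk hn t
    exfalso
    apply hk
    ext <;> simp <;> omega
  | succ n ih =>
    intro k hk hn t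
    by_cases hp : 2 ∣ k.1 ∧ 2 ∣ k.2
    · obtain ⟨⟨a, ha⟩, ⟨b, hb⟩⟩ := hp
      have hk' : ((a, b) : ℤ × ℤ) ≠ 0 := by
        intro h
        rw [Prod.mk_eq_zero] at h
        apply hk
        ext <;> simp [ha, hb, h.1, h.2]
      have hpos : 0 < a.natAbs + b.natAbs := by
        rcases Nat.eq_zero_or_pos (a.natAbs + b.natAbs) with h | h
        · exfalso; apply hk'; ext <;> simp <;> omega
        · exact h
      have hXV : ∀ S : Fin r → Fin 3, XV k S = 2 * XV (a, b) S := by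
        intro S
        unfold XV
        rw [mul_sum]
        apply sum_congr rfl
        intro i _
        unfold kv
        rw [ha, hb]; ring
      refine le_trans ?_ (ih (a, b) hk' (by simp only; omega) (t / 2))
      have hsub : ((TQ ε r).filter fun S => XV k S = t)
          ⊆ ((TQ ε r).filter fun S => XV (a, b) S = t / 2) := by
        intro S hS
        rw [mem_filter] at hS ⊢
        refine ⟨hS.1, ?_⟩
        have := hS.2
        rw [hXV] at this
        omega
      exact_mod_cast card_le_card hsub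
    · exact fibre_odd k hp ε hε r t

end Pool.Agent.H93.BT
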