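import Pool.Agent.H93.BT.Fibre

/-! (T4), counting part: pairs of typical strings. -/

namespace Pool.Agent.H93.BT

open Finset

/-- inhomogeneous tree lemma over an arbitrary finite alphabet -/
lemma treeG {X : Type*} [Fintype X] [DecidableEq X] (v : X → ℤ) :
    ∀ (r : ℕ) (ρ : Fin r → X → ℝ) (_ : ∀ i x, 0 ≤ ρ i x)
      (_ : ∀ (i : Fin r) (c : ℤ), ∑ x, (if (2:ℤ) ∣ c - v x then ρ i x else 0) ≤ 1) (t : ℤ),
      ∑ S : Fin r → X, (if ∑ i : Fin r, 2 ^ (i:ℕ) * v (S i) = t then ∏ i, ρ i (S i) else 0) ≤ 1 := by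
  intro r
  induction r with
  | zero =>
    intro ρ _ _ t
    rw [Fintype.sum_subsingleton _ (fun i => Fin.elim0 i)]
    split_ifs <;> simp
  | succ r ih =>
    intro ρ hρ h t
    rw [← (Fin.consEquiv (fun _ => X)).sum_comp, Fintype.sum_prod_type]
    refine le_trans ?_ (h 0 t)
    apply sum_le_sum
    intro s _
    have hval : ∀ S : Fin r → X, ∑ i : Fin (r+1), 2 ^ (i:ℕ) * v ((Fin.cons s S : Fin (r+1) → X) i)
        = v s + 2 * ∑ i : Fin r, 2 ^ (i:ℕ) * v (S i) := by
      intro S
      rw [Fin.sum_univ_succ, mul_sum]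
      simp only [Fin.cons_zero, Fin.cons_succ, Fin.val_zero, pow_zero, one_mul, Fin.val_succ]
      congr 1
      apply sum_congr rfl
      intro i _
      rw [pow_succ]; ring
    have hterm : ∀ S : Fin r → X,
        (if ∑ i : Fin (r+1), 2 ^ (i:ℕ) * v ((Fin.cons s S : Fin (r+1) → X) i) = t then
          ∏ i, ρ i ((Fin.cons s S : Fin (r + 1) → X) i) else 0)
        = if (2:ℤ) ∣ t - v s then
            ρ 0 s * (if ∑ i : Fin r, 2 ^ (i:ℕ) * v (S i) = (t - v s) / 2 then
              ∏ i, ρ (Fin.succ i) (S i) else 0) else 0 := by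
      intro S
      rw [hval, Fin.prod_univ_succ]
      simp only [Fin.cons_zero, Fin.cons_succ]
      by_cases hd : (2:ℤ) ∣ t - v s
      · rw [if_pos hd]
        by_cases he : ∑ i : Fin r, 2 ^ (i:ℕ) * v (S i) = (t - v s) / 2
        · have : v s + 2 * ∑ i : Fin r, 2 ^ (i:ℕ) * v (S i) = t := by omega
          rw [if_pos this, if_pos he]
        · have : ¬ v s + 2 * ∑ i : Fin r, 2 ^ (i:ℕ) * v (S i) = t := by omega
          rw [if_neg this, if_neg he, mul_zero]
      · have : ¬ v s + 2 * ∑ i : Fin r, 2 ^ (i:ℕ) * v (S i) = t := by omega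
        rw [if_neg hd, if_neg this]
    have hE : ∀ S : Fin r → X, (Fin.consEquiv (fun _ => X)) (s, S)
        = (Fin.cons s S : Fin (r + 1) → X) := fun S => rfl
    simp only [hE, hterm]
    by_cases hd : (2:ℤ) ∣ t - v s
    · simp only [if_pos hd, ← mul_sum]
      calc ρ 0 s * _ ≤ ρ 0 s * 1 :=
            mul_le_mul_of_nonneg_left (ih (fun i => ρ i.succ) (fun i x => hρ _ x) (fun i c => h _ c)
              ((t - v s) / 2)) (hρ 0 s)
        _ = ρ 0 s := mul_one _
    · simp [if_neg hd]

lemma nb_zero : nb 0 = 0 := by simp [nb]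
lemma nb_one : nb 1 = 0 := by simp [nb]
lemma nb_two : nb 2 = 1 := by simp [nb]

/-- the `a`-bit string of a symbol string -/
def aS {r : ℕ} (S : Fin r → Fin 3) : Fin r → Bool := fun i => decide (S i ≠ 0)

/-- number of common ones -/
def n11 {r : ℕ} (A A' : Fin r → Bool) : ℕ := (univ.filter fun i => A i = true ∧ A' i = true).card

/-- pairs of strings with given `a`-strings and given difference of the `N`-values -/
lemma pair_count {r : ℕ} (A A' : Fin r → Bool) (c : ℤ) :
    (((univ : Finset ((Fin r → Fin 3) × (Fin r → Fin 3))).filter fun p =>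
      aS p.1 = A ∧ aS p.2 = A' ∧ XV (1,0) p.1 - XV (1,0) p.2 = c).card : ℝ) ≤ 2 ^ n11 A A' := by
  classical
  let v : Fin 3 × Fin 3 → ℤ := fun x => nb x.1 - nb x.2
  let w : Fin r → ℝ := fun i => if A i = true ∧ A' i = true then 2 else 1
  let ρ : Fin r → Fin 3 × Fin 3 → ℝ := fun i x =>
    if decide (x.1 ≠ 0) = A i ∧ decide (x.2 ≠ 0) = A' i then (w i)⁻¹ else 0
  have hw : ∀ i, 0 < w i := fun i => by simp only [w]; split_ifs <;> norm_num
  have hρ : ∀ i x, 0 ≤ ρ i x := fun i x => by
    simp only [ρ]; split_ifs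
    · exact (inv_pos.2 (hw i)).le
    · exact le_rfl
  have hpar : ∀ (i : Fin r) (c : ℤ), ∑ x, (if (2:ℤ) ∣ c - v x then ρ i x else 0) ≤ 1 := by
    intro i c
    rw [Fintype.sum_prod_type]
    rw [Fin.sum_univ_three, Fin.sum_univ_three, Fin.sum_univ_three, Fin.sum_univ_three]
    have e00 : v (0,0) = 0 := by simp only [v, nb_zero, sub_zero]
    have e01 : v (0,1) = 0 := by simp only [v, nb_zero, nb_one, sub_zero]
    have e02 : v (0,2) = -1 := by simp only [v, nb_zero, nb_two, zero_sub]
    have e10 : v (1,0) = 0 := by simp only [v, nb_zero, nb_one, sub_zero]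
    have e11 : v (1,1) = 0 := by simp only [v, nb_one, sub_zero]
    have e12 : v (1,2) = -1 := by simp only [v, nb_one, nb_two, zero_sub]
    have e20 : v (2,0) = 1 := by simp only [v, nb_zero, nb_two, sub_zero]
    have e21 : v (2,1) = 1 := by simp only [v, nb_one, nb_two, sub_zero]
    have e22 : v (2,2) = 0 := by simp only [v, nb_two, sub_self]
    simp only [e00, e01, e02, e10, e11, e12, e20, e21, e22]
    by_cases g : (2:ℤ) ∣ c
    · have g0 : (2:ℤ) ∣ c - 0 := by omega
      have g1 : ¬ (2:ℤ) ∣ c - (-1) := by omega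
      have g2 : ¬ (2:ℤ) ∣ c - 1 := by omega
      simp only [if_pos g0, if_neg g1, if_neg g2, ρ, w]
      cases A i <;> cases A' i <;> simp <;> norm_num
    · have g0 : ¬ (2:ℤ) ∣ c - 0 := by omega
      have g1 : (2:ℤ) ∣ c - (-1) := by omega
      have g2 : (2:ℤ) ∣ c - 1 := by omega
      simp only [if_neg g0, if_pos g1, if_pos g2, ρ, w]
      cases A i <;> cases A' i <;> simp <;> norm_num
  have htree := treeG v r ρ hρ hpar c
  have hprod : ∏ i, w i = 2 ^ n11 A A' := by
    simp only [w]
    rw [prod_ite, prod_const_one, mul_one, prod_const]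
    rfl
  -- rewrite the tree sum
  have hsum : (((univ : Finset ((Fin r → Fin 3) × (Fin r → Fin 3))).filter fun p =>
      aS p.1 = A ∧ aS p.2 = A' ∧ XV (1,0) p.1 - XV (1,0) p.2 = c).card : ℝ) * (∏ i, w i)⁻¹
      ≤ ∑ S : Fin r → Fin 3 × Fin 3,
        (if ∑ i : Fin r, 2 ^ (i:ℕ) * v (S i) = c then ∏ i, ρ i (S i) else 0) := by
    rw [← (Equiv.arrowProdEquivProdArrow (Fin r) (fun _ => Fin 3) (fun _ => Fin 3)).symm.sum_comp]
    rw [← nsmul_eq_mul, ← sum_const, sum_filter]
    apply sum_le_sum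
    intro p _
    have hp : (Equiv.arrowProdEquivProdArrow (Fin r) (fun _ => Fin 3) (fun _ => Fin 3)).symm p
        = fun i => (p.1 i, p.2 i) := rfl
    rw [hp]
    by_cases h : aS p.1 = A ∧ aS p.2 = A' ∧ XV (1,0) p.1 - XV (1,0) p.2 = c
    · rw [if_pos h]
      have hv : ∑ i : Fin r, 2 ^ (i:ℕ) * v (p.1 i, p.2 i) = c := by
        rw [← h.2.2]
        unfold XV
        rw [← sum_sub_distrib]
        apply sum_congr rfl
        intro i _
        simp only [v, kv]; ring
      rw [if_pos hv, ← prod_inv_distrib]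
      apply le_of_eq
      apply prod_congr rfl
      intro i _
      simp only [ρ]
      rw [if_pos]
      exact ⟨congrFun h.1 i, congrFun h.2.1 i⟩
    · rw [if_neg h]
      split_ifs
      · exact prod_nonneg fun i _ => hρ i _
      · exact le_rfl
  have hW : 0 < ∏ i, w i := prod_pos fun i _ => hw i
  have h1 := hsum.trans htree
  rw [← hprod]
  rw [← div_eq_mul_inv, div_le_one hW] at h1
  exact h1

/-- sum over typical `a`-pairs of `2^n11` -/
lemma sum_n11 (r : ℕ) (x : ℝ) :
    ∑ p ∈ (univ : Finset ((Fin r → Bool) × (Fin r → Bool))).filter (fun p =>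
      x ≤ ((univ.filter fun i => p.1 i = true).card : ℝ) + (univ.filter fun i => p.2 i = true).card),
      (2:ℝ) ^ n11 p.1 p.2 ≤ 13 ^ r * (2:ℝ) ^ (-x) := by
  classical
  have hall : ∑ p : (Fin r → Bool) × (Fin r → Bool), (2:ℝ) ^ n11 p.1 p.2 *
      (2:ℝ) ^ ((univ.filter fun i => p.1 i = true).card + (univ.filter fun i => p.2 i = true).card)
      = 13 ^ r := by
    rw [← (Equiv.arrowProdEquivProdArrow (Fin r) (fun _ => Bool) (fun _ => Bool)).sum_comp]
    have hterm : ∀ P : Fin r → Bool × Bool,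
        (2:ℝ) ^ n11 (fun i => (P i).1) (fun i => (P i).2) *
        (2:ℝ) ^ ((univ.filter fun i => (P i).1 = true).card + (univ.filter fun i => (P i).2 = true).card)
        = ∏ i, (fun z : Bool × Bool => (if z.1 = true ∧ z.2 = true then (2:ℝ) else 1) *
            ((if z.1 = true then (2:ℝ) else 1) * (if z.2 = true then (2:ℝ) else 1))) (P i) := by
      intro P
      simp only [prod_mul_distrib]
      rw [prod_ite, prod_ite, prod_ite]
      simp only [prod_const_one, mul_one, prod_const]
      rw [pow_add]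
      rfl
    have hE : ∀ P : Fin r → Bool × Bool,
        (Equiv.arrowProdEquivProdArrow (Fin r) (fun _ => Bool) (fun _ => Bool)) P
          = (fun i => (P i).1, fun i => (P i).2) := fun P => rfl
    simp only [hE]
    rw [sum_congr rfl (fun P _ => hterm P)]
    have := (Finset.prod_univ_sum (fun _ : Fin r => (univ : Finset (Bool × Bool)))
      (fun _ z => (fun z : Bool × Bool => (if z.1 = true ∧ z.2 = true then (2:ℝ) else 1) *
            ((if z.1 = true then (2:ℝ) else 1) * (if z.2 = true then (2:ℝ) else 1))) z)).symm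
    rw [Fintype.piFinset_univ] at this
    rw [this]
    simp only [Fintype.sum_prod_type, Fintype.sum_bool, prod_const, card_univ, Fintype.card_fin]
    norm_num
  rw [← hall, sum_mul]
  refine le_trans ?_ (sum_le_sum_of_subset_of_nonneg (filter_subset (fun p : (Fin r → Bool) × (Fin r → Bool) =>
      x ≤ ((univ.filter fun i => p.1 i = true).card : ℝ) + (univ.filter fun i => p.2 i = true).card) _)
      (fun p _ _ => by positivity))
  apply sum_le_sum
  intro p hp
  rw [mem_filter] at hp
  rw [mul_assoc]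
  apply le_mul_of_one_le_right (by positivity)
  rw [← Real.rpow_natCast, ← Real.rpow_add (by norm_num)]
  apply Real.one_le_rpow (by norm_num)
  push_cast
  linarith [hp.2]

end Pool.Agent.H93.BT
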