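import Pool.Agent.H93.BT.CollSum

/-! (T5): real directions. -/

namespace Pool.Agent.H93.BT

open Finset

/-- bound `13^r 2^(-(3-8ε)/2 r)` -/
noncomputable def BB (ε : ℝ) (r : ℕ) : ℝ := 13 ^ r * (2:ℝ) ^ (-((3 - 8 * ε) / 2 * r))

lemma BB_nonneg (ε : ℝ) (r : ℕ) : 0 ≤ BB ε r := by unfold BB; positivity

lemma int_window (x M : ℝ) (hM : 0 ≤ M) :
    ((Icc ⌈x - M⌉ ⌊x + M⌋).card : ℝ) ≤ 2 * M + 1 := by
  rw [Int.card_Icc]
  have h1 : ((⌊x + M⌋ : ℤ) : ℝ) ≤ x + M := Int.floor_le _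
  have h2 : x - M ≤ ((⌈x - M⌉ : ℤ) : ℝ) := Int.le_ceil _
  have h3 : (((⌊x + M⌋ + 1 - ⌈x - M⌉).toNat : ℤ) : ℝ) ≤ 2 * M + 1 := by
    rw [Int.toNat_eq_max]
    push_cast
    apply max_le
    · linarith
    · linarith
  exact_mod_cast h3

lemma real_case1 (ε : ℝ) (r : ℕ) (α β u L : ℝ) (hα : 1 / 4 ≤ |α|) (hL : 0 ≤ L)
    (U : Finset (Fin r → Fin 3)) (hU : ∀ S ∈ U, (cnt 0 S : ℝ) ≤ (1 / 4 + 2 * ε) * r) :
    (((U ×ˢ U).filter fun p => |α * ((XV (1,0) p.1 - XV (1,0) p.2 : ℤ) : ℝ) +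
      β * ((XV (0,1) p.1 - XV (0,1) p.2 : ℤ) : ℝ) - u| ≤ L).card : ℝ) ≤ (8 * L + 1) * BB ε r := by
  classical
  let tgt : Finset ((Fin r → Bool) × (Fin r → Bool)) :=
      (univ : Finset ((Fin r → Bool) × (Fin r → Bool))).filter (fun p =>
      (3 - 8 * ε) / 2 * r ≤ ((univ.filter fun i => p.1 i = true).card : ℝ) + (univ.filter fun i => p.2 i = true).card)
  have hα0 : α ≠ 0 := by
    intro h; rw [h, abs_zero] at hα; linarith
  have hmaps : ∀ p ∈ (U ×ˢ U).filter (fun p => |α * ((XV (1,0) p.1 - XV (1,0) p.2 : ℤ) : ℝ) +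
      β * ((XV (0,1) p.1 - XV (0,1) p.2 : ℤ) : ℝ) - u| ≤ L), (aS p.1, aS p.2) ∈ tgt := by
    intro p hp
    rw [mem_filter, mem_product] at hp
    simp only [tgt, mem_filter, mem_univ, true_and]
    have h1 := hU _ hp.1.1
    have h2 := hU _ hp.1.2
    have c1 := cnt_aS p.1
    have c2 := cnt_aS p.2
    have c1' : (cnt 0 p.1 : ℝ) + ((univ.filter fun i => aS p.1 i = true).card : ℝ) = r := by exact_mod_cast c1
    have c2' : (cnt 0 p.2 : ℝ) + ((univ.filter fun i => aS p.2 i = true).card : ℝ) = r := by exact_mod_cast c2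
    linarith
  rw [card_eq_sum_card_fiberwise hmaps, Nat.cast_sum]
  have hfib : ∀ AA ∈ tgt, ((((U ×ˢ U).filter (fun p => |α * ((XV (1,0) p.1 - XV (1,0) p.2 : ℤ) : ℝ) +
      β * ((XV (0,1) p.1 - XV (0,1) p.2 : ℤ) : ℝ) - u| ≤ L)).filter
        (fun p => (aS p.1, aS p.2) = AA)).card : ℝ) ≤ (8 * L + 1) * (2:ℝ) ^ n11 AA.1 AA.2 := by
    intro AA _
    set d : ℤ := bval AA.1 - bval AA.2 with hd
    set x : ℝ := (u - β * d) / α with hx
    have hsub : (((U ×ˢ U).filter (fun p => |α * ((XV (1,0) p.1 - XV (1,0) p.2 : ℤ) : ℝ) +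
      β * ((XV (0,1) p.1 - XV (0,1) p.2 : ℤ) : ℝ) - u| ≤ L)).filter
        (fun p => (aS p.1, aS p.2) = AA)) ⊆
        (Icc ⌈x - 4 * L⌉ ⌊x + 4 * L⌋).biUnion (fun c =>
          ((univ : Finset ((Fin r → Fin 3) × (Fin r → Fin 3))).filter fun p =>
      aS p.1 = AA.1 ∧ aS p.2 = AA.2 ∧ XV (1,0) p.1 - XV (1,0) p.2 = c)) := by
      intro p hp
      rw [mem_filter, mem_filter] at hp
      obtain ⟨⟨_, h1⟩, h2⟩ := hp
      have g1 : aS p.1 = AA.1 := by rw [← h2]
      have g2 : aS p.2 = AA.2 := by rw [← h2]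
      rw [mem_biUnion]
      refine ⟨XV (1,0) p.1 - XV (1,0) p.2, ?_, ?_⟩
      · have hVa : XV (0,1) p.1 - XV (0,1) p.2 = d := by
          rw [hd, XV_a, XV_a, g1, g2]; rfl
        rw [hVa] at h1
        set c : ℝ := ((XV (1,0) p.1 - XV (1,0) p.2 : ℤ) : ℝ) with hc
        have h3 : |c - x| ≤ 4 * L := by
          have e1 : c - x = (α * c + β * d - u) / α := by
            rw [hx]; field_simp; ring
          rw [e1, abs_div, div_le_iff₀ (by linarith [abs_pos.2 hα0])]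
          calc |α * c + β * d - u| ≤ L := h1
            _ = 4 * L * (1/4) := by ring
            _ ≤ 4 * L * |α| := mul_le_mul_of_nonneg_left hα (by positivity)
        rw [abs_le] at h3
        rw [mem_Icc]
        constructor
        · rw [Int.ceil_le]; linarith
        · rw [Int.le_floor]; linarith
      · rw [mem_filter]
        exact ⟨mem_univ _, g1, g2, rfl⟩
    have h1 := card_le_card hsub
    have h2 := card_biUnion_le (s := Icc ⌈x - 4 * L⌉ ⌊x + 4 * L⌋) (t := fun c =>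
          ((univ : Finset ((Fin r → Fin 3) × (Fin r → Fin 3))).filter fun p =>
      aS p.1 = AA.1 ∧ aS p.2 = AA.2 ∧ XV (1,0) p.1 - XV (1,0) p.2 = c))
    calc _ ≤ ((∑ c ∈ Icc ⌈x - 4 * L⌉ ⌊x + 4 * L⌋,
          ((univ : Finset ((Fin r → Fin 3) × (Fin r → Fin 3))).filter fun p =>
      aS p.1 = AA.1 ∧ aS p.2 = AA.2 ∧ XV (1,0) p.1 - XV (1,0) p.2 = c).card : ℕ) : ℝ) := by
            exact_mod_cast h1.trans h2
      _ ≤ ∑ c ∈ Icc ⌈x - 4 * L⌉ ⌊x + 4 * L⌋, (2:ℝ) ^ n11 AA.1 AA.2 := by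
            push_cast
            exact sum_le_sum fun c _ => pair_count _ _ _
      _ = ((Icc ⌈x - 4 * L⌉ ⌊x + 4 * L⌋).card : ℝ) * (2:ℝ) ^ n11 AA.1 AA.2 := by
            rw [sum_const, nsmul_eq_mul]
      _ ≤ _ := by
            apply mul_le_mul_of_nonneg_right _ (by positivity)
            have := int_window x (4 * L) (by positivity)
            linarith
  refine (sum_le_sum hfib).trans ?_
  rw [← mul_sum]
  exact mul_le_mul_of_nonneg_left (sum_n11 r _) (by positivity)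

/-- swap of the symbols `0` and `1` -/
def sw : Fin 3 → Fin 3 := ![1, 0, 2]

lemma sw_sw : ∀ s, sw (sw s) = s := by decide

lemma nb_sw : ∀ s, nb (sw s) = nb s := by decide

lemma ab_sw : ∀ s, ab (sw s) = 1 - (ab s - nb s) := by decide

lemma XV_sw_N {r : ℕ} (S : Fin r → Fin 3) : XV (1,0) (fun i => sw (S i)) = XV (1,0) S := by
  unfold XV
  apply sum_congr rfl
  intro i _
  simp only [kv, nb_sw, zero_mul]

lemma XV_sw_a {r : ℕ} (S : Fin r → Fin 3) : XV (0,1) (fun i => sw (S i)) =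
    (∑ i : Fin r, 2 ^ (i:ℕ)) - (XV (0,1) S - XV (1,0) S) := by
  unfold XV
  rw [← sum_sub_distrib, ← sum_sub_distrib]
  apply sum_congr rfl
  intro i _
  simp only [kv, ab_sw]
  ring

lemma cnt_sw {r : ℕ} (S : Fin r → Fin 3) : cnt 0 (fun i => sw (S i)) = cnt 1 S := by
  unfold cnt
  congr 1
  apply filter_congr
  intro i _
  have : ∀ s : Fin 3, sw s = 0 ↔ s = 1 := by decide
  exact this (S i)

/-- (T5) real directions -/
theorem real_coll (ε : ℝ) (hε : 0 ≤ ε) (r : ℕ) (α β u L : ℝ) (hθ : 1 / 2 ≤ max |α| |β|) (hL : 0 ≤ L) :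
    (((TQ ε r ×ˢ TQ ε r).filter fun p => |α * ((XV (1,0) p.1 - XV (1,0) p.2 : ℤ) : ℝ) +
      β * ((XV (0,1) p.1 - XV (0,1) p.2 : ℤ) : ℝ) - u| ≤ L).card : ℝ) ≤ (8 * L + 1) * BB ε r := by
  classical
  by_cases hα : 1 / 4 ≤ |α|
  · exact real_case1 ε r α β u L hα hL (TQ ε r) (fun S hS => (mem_TQ.1 hS).1)
  · push Not at hα
    have hβ : 1 / 2 ≤ |β| := by
      rcases le_max_iff.1 hθ with h | h
      · linarith
      · exact h
    have hαβ : 1 / 4 ≤ |α + β| := by
      have := abs_sub_abs_le_abs_sub β (-α)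
      rw [abs_neg, sub_neg_eq_add, add_comm β α] at this
      linarith
    have hr : (0:ℝ) ≤ ε * r := by positivity
    let U : Finset (Fin r → Fin 3) := (TQ ε r).image (fun S => fun i => sw (S i))
    have hU : ∀ S ∈ U, (cnt 0 S : ℝ) ≤ (1 / 4 + 2 * ε) * r := by
      intro S hS
      obtain ⟨S', hS', rfl⟩ := mem_image.1 hS
      rw [cnt_sw]
      have := (mem_TQ.1 hS').2.1
      nlinarith
    refine le_trans ?_ (real_case1 ε r (α + β) (-β) u L hαβ hL U hU)
    have hinj : Function.Injective (fun p : (Fin r → Fin 3) × (Fin r → Fin 3) =>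
        ((fun i => sw (p.1 i) : Fin r → Fin 3), (fun i => sw (p.2 i) : Fin r → Fin 3))) := by
      intro p p' h
      simp only [Prod.mk.injEq] at h
      ext i
      · have := congrFun h.1 i
        have h2 := congrArg sw this
        simp only [sw_sw] at h2
        rw [h2]
      · have := congrFun h.2 i
        have h2 := congrArg sw this
        simp only [sw_sw] at h2
        rw [h2]
    have : ((TQ ε r ×ˢ TQ ε r).filter fun p => |α * ((XV (1,0) p.1 - XV (1,0) p.2 : ℤ) : ℝ) +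
      β * ((XV (0,1) p.1 - XV (0,1) p.2 : ℤ) : ℝ) - u| ≤ L).card ≤
      ((U ×ˢ U).filter fun p => |(α + β) * ((XV (1,0) p.1 - XV (1,0) p.2 : ℤ) : ℝ) +
      (-β) * ((XV (0,1) p.1 - XV (0,1) p.2 : ℤ) : ℝ) - u| ≤ L).card := by
      apply card_le_card_of_injOn _ _ hinj.injOn
      intro p hp
      rw [mem_coe, mem_filter, mem_product] at hp
      rw [mem_coe, mem_filter, mem_product]
      refine ⟨⟨mem_image_of_mem _ hp.1.1, mem_image_of_mem _ hp.1.2⟩, ?_⟩
      simp only [XV_sw_N, XV_sw_a]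
      refine le_trans (le_of_eq ?_) hp.2
      congr 1
      push_cast
      ring
    exact_mod_cast this

/-- (T5) with layers -/
theorem real_layers (ε : ℝ) (hε : 0 ≤ ε) (r : ℕ) (α β : ℝ) (hθ : 1 / 2 ≤ max |α| |β|)
    (hα1 : |α| ≤ 1) (hβ1 : |β| ≤ 1) :
    ∑ p ∈ TQ ε r ×ˢ TQ ε r, min 1 (1 / |α * ((XV (1,0) p.1 - XV (1,0) p.2 : ℤ) : ℝ) +
      β * ((XV (0,1) p.1 - XV (0,1) p.2 : ℤ) : ℝ)|) ≤ 17 * (r + 2) * BB ε r := by
  classical
  set V : (Fin r → Fin 3) × (Fin r → Fin 3) → ℝ := fun p => |α * ((XV (1,0) p.1 - XV (1,0) p.2 : ℤ) : ℝ) +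
      β * ((XV (0,1) p.1 - XV (0,1) p.2 : ℤ) : ℝ)| with hV
  have hXN : ∀ S : Fin r → Fin 3, (0:ℝ) ≤ (XV (1,0) S : ℤ) ∧ ((XV (1,0) S : ℤ) : ℝ) ≤ 2 ^ r := by
    intro S
    have h : XV (1,0) S = bval (fun i => decide (S i = 2)) := by
      unfold XV bval
      apply sum_congr rfl
      intro i _
      congr 1
      have : ∀ s : Fin 3, kv (1,0) s = if decide (s = 2) = true then (1:ℤ) else 0 := by decide
      exact this (S i)
    have := bval_bounds (fun i => decide (S i = 2))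
    rw [h]
    constructor
    · exact_mod_cast this.1
    · exact_mod_cast this.2.le
  have hXa : ∀ S : Fin r → Fin 3, (0:ℝ) ≤ (XV (0,1) S : ℤ) ∧ ((XV (0,1) S : ℤ) : ℝ) ≤ 2 ^ r := by
    intro S
    have h : XV (0,1) S = bval (aS S) := XV_a S
    have := bval_bounds (aS S)
    rw [h]
    constructor
    · exact_mod_cast this.1
    · exact_mod_cast this.2.le
  have hVlt : ∀ p, V p < 2 ^ (r + 2) := by
    intro p
    have h1 : |((XV (1,0) p.1 - XV (1,0) p.2 : ℤ) : ℝ)| ≤ 2 ^ r := by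
      push_cast
      rw [abs_le]; constructor <;> linarith [hXN p.1, hXN p.2]
    have h2 : |((XV (0,1) p.1 - XV (0,1) p.2 : ℤ) : ℝ)| ≤ 2 ^ r := by
      push_cast
      rw [abs_le]; constructor <;> linarith [hXa p.1, hXa p.2]
    calc V p ≤ |α| * |((XV (1,0) p.1 - XV (1,0) p.2 : ℤ) : ℝ)| + |β| * |((XV (0,1) p.1 - XV (0,1) p.2 : ℤ) : ℝ)| := by
          simp only [hV]
          refine (abs_add_le _ _).trans ?_
          rw [abs_mul, abs_mul]
      _ ≤ 1 * 2 ^ r + 1 * 2 ^ r := by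
          apply add_le_add
          · exact mul_le_mul hα1 h1 (abs_nonneg _) (by norm_num)
          · exact mul_le_mul hβ1 h2 (abs_nonneg _) (by norm_num)
      _ < 2 ^ (r + 2) := by
          rw [pow_add]
          have : (0:ℝ) < 2 ^ r := by positivity
          linarith
  have hpt : ∀ p, min 1 (1 / V p) ≤ ∑ j ∈ range (r + 2), (1 / 2 : ℝ) ^ j * (if V p ≤ 2 ^ (j + 1) then 1 else 0) := by
    intro p
    have hnn : ∀ j ∈ range (r + 2), 0 ≤ (1 / 2 : ℝ) ^ j * (if V p ≤ 2 ^ (j + 1) then 1 else 0) := by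
      intro j _; split_ifs <;> positivity
    by_cases h1 : V p < 1
    · have h0 : (0:ℕ) ∈ range (r + 2) := by simp
      refine le_trans (min_le_left _ _) ?_
      refine le_trans ?_ (single_le_sum hnn h0)
      rw [if_pos (by norm_num; linarith)]
      norm_num
    · push Not at h1
      -- take least j with V p ≤ 2^(j+1)
      have hex : ∃ j, V p < 2 ^ (j + 1) := ⟨r + 1, hVlt p⟩
      classical
      let j := Nat.find hex
      have hj : V p < 2 ^ (j + 1) := Nat.find_spec hex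
      have hjr : j ≤ r + 1 := Nat.find_min' hex (hVlt p)
      have hlow : (2:ℝ) ^ j ≤ V p := by
        rcases Nat.eq_zero_or_pos j with h | h
        · rw [h]; simpa using h1
        · have := Nat.find_min hex (m := j - 1) (by omega)
          push Not at this
          rwa [Nat.sub_add_cancel h] at this
      refine le_trans (min_le_right _ _) ?_
      refine le_trans ?_ (single_le_sum hnn (mem_range.2 (by omega : j < r + 2)))
      rw [if_pos hj.le, mul_one, one_div_pow]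
      exact one_div_le_one_div_of_le (by positivity) hlow
  refine (sum_le_sum fun p _ => hpt p).trans ?_
  rw [sum_comm]
  have hj : ∀ j ∈ range (r + 2), ∑ p ∈ TQ ε r ×ˢ TQ ε r, (1 / 2 : ℝ) ^ j * (if V p ≤ 2 ^ (j + 1) then (1:ℝ) else 0)
      ≤ 17 * BB ε r := by
    intro j _
    rw [← mul_sum, ← sum_filter, sum_const, nsmul_eq_mul, mul_one]
    have h := real_coll ε hε r α β 0 (2 ^ (j + 1)) hθ (by positivity)
    simp only [sub_zero] at h
    have h2 : (((TQ ε r ×ˢ TQ ε r).filter fun p => V p ≤ 2 ^ (j + 1)).card : ℝ) ≤ (8 * 2 ^ (j + 1) + 1) * BB ε r := h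
    calc (1 / 2 : ℝ) ^ j * (((TQ ε r ×ˢ TQ ε r).filter fun p => V p ≤ 2 ^ (j + 1)).card : ℝ)
        ≤ (1 / 2 : ℝ) ^ j * ((8 * 2 ^ (j + 1) + 1) * BB ε r) := mul_le_mul_of_nonneg_left h2 (by positivity)
      _ = ((1 / 2 : ℝ) ^ j * 2 ^ j * 16 + (1/2)^j) * BB ε r := by ring
      _ ≤ 17 * BB ε r := by
          apply mul_le_mul_of_nonneg_right _ (BB_nonneg ε r)
          rw [← mul_pow]
          have : (1/2 : ℝ) ^ j ≤ 1 := pow_le_one₀ (by norm_num) (by norm_num)
          norm_num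
          linarith
  refine (sum_le_sum hj).trans ?_
  rw [sum_const, card_range, nsmul_eq_mul]
  push_cast
  apply le_of_eq; ring

end Pool.Agent.H93.BT
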