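import Mathlib

/-! MP_1f2761, bits part: symbols, the tree lemma, fibre counts. -/

namespace Pool.Agent.H93.BT

open Finset

/-- symbols: `0 = (N,a) = (0,0)`, `1 = (0,1)`, `2 = (1,1)`; bit of `N` -/
def nb : Fin 3 → ℤ := ![0, 0, 1]
/-- bit of `a` -/
def ab : Fin 3 → ℤ := ![0, 1, 1]

/-- value of a frequency on a symbol -/
def kv (k : ℤ × ℤ) (s : Fin 3) : ℤ := k.1 * nb s + k.2 * ab s

/-- value of a frequency on a string; `S 0` is the lowest bit -/
def XV (k : ℤ × ℤ) {r : ℕ} (S : Fin r → Fin 3) : ℤ := ∑ i : Fin r, 2 ^ (i : ℕ) * kv k (S i)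

/-- number of occurrences of a symbol -/
def cnt {r : ℕ} (s : Fin 3) (S : Fin r → Fin 3) : ℕ := (univ.filter fun i => S i = s).card

lemma XV_cons (k : ℤ × ℤ) {r : ℕ} (s : Fin 3) (S : Fin r → Fin 3) :
    XV k (Fin.cons s S : Fin (r + 1) → Fin 3) = kv k s + 2 * XV k S := by
  unfold XV
  rw [Fin.sum_univ_succ, mul_sum]
  simp only [Fin.cons_zero, Fin.cons_succ, Fin.val_zero, pow_zero, one_mul, Fin.val_succ]
  congr 1
  apply sum_congr rfl
  intro i _
  rw [pow_succ]; ring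

/-- tree lemma -/
lemma tree (k : ℤ × ℤ) (ρ : Fin 3 → ℝ) (hρ : ∀ s, 0 ≤ ρ s)
    (h : ∀ c : ℤ, ∑ s, (if (2:ℤ) ∣ c - kv k s then ρ s else 0) ≤ 1) :
    ∀ (r : ℕ) (t : ℤ), ∑ S : Fin r → Fin 3, (if XV k S = t then ∏ i, ρ (S i) else 0) ≤ 1 := by
  intro r
  induction r with
  | zero =>
    intro t
    rw [Fintype.sum_subsingleton _ (fun i => Fin.elim0 i)]
    split_ifs <;> simp
  | succ r ih =>
    intro t
    rw [← (Fin.consEquiv (fun _ => Fin 3)).sum_comp, Fintype.sum_prod_type]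
    refine le_trans ?_ (h t)
    apply sum_le_sum
    intro s _
    have hterm : ∀ S : Fin r → Fin 3,
        (if XV k (Fin.cons s S : Fin (r + 1) → Fin 3) = t then
          ∏ i, ρ ((Fin.cons s S : Fin (r + 1) → Fin 3) i) else 0)
        = if (2:ℤ) ∣ t - kv k s then
            ρ s * (if XV k S = (t - kv k s) / 2 then ∏ i, ρ (S i) else 0) else 0 := by
      intro S
      rw [XV_cons, Fin.prod_univ_succ]
      simp only [Fin.cons_zero, Fin.cons_succ]
      by_cases hd : (2:ℤ) ∣ t - kv k s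
      · rw [if_pos hd]
        by_cases he : XV k S = (t - kv k s) / 2
        · have : kv k s + 2 * XV k S = t := by omega
          rw [if_pos this, if_pos he]
        · have : ¬ kv k s + 2 * XV k S = t := by omega
          rw [if_neg this, if_neg he, mul_zero]
      · have : ¬ kv k s + 2 * XV k S = t := by omega
        rw [if_neg hd, if_neg this]
    have hE : ∀ S : Fin r → Fin 3, (Fin.consEquiv (fun _ => Fin 3)) (s, S)
        = (Fin.cons s S : Fin (r + 1) → Fin 3) := fun S => rfl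
    simp only [hE, hterm]
    by_cases hd : (2:ℤ) ∣ t - kv k s
    · simp only [if_pos hd, ← mul_sum]
      calc ρ s * _ ≤ ρ s * 1 := mul_le_mul_of_nonneg_left (ih _) (hρ s)
        _ = ρ s := mul_one _
    · simp [if_neg hd]

lemma prod_cnt {r : ℕ} (ρ : Fin 3 → ℝ) (S : Fin r → Fin 3) :
    ∏ i, ρ (S i) = ρ 0 ^ cnt 0 S * ρ 1 ^ cnt 1 S * ρ 2 ^ cnt 2 S := by
  classical
  rw [← prod_fiberwise univ S (fun i => ρ (S i)), Fin.prod_univ_three]
  have h : ∀ s : Fin 3, ∏ i ∈ univ.filter (fun i => S i = s), ρ (S i) = ρ s ^ cnt s S := by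
    intro s
    rw [prod_congr rfl (g := fun _ => ρ s) (fun i hi => by rw [(mem_filter.1 hi).2]), prod_const]
    rfl
  rw [h, h, h]

/-- fibre count from a weight -/
lemma fibre_of_weight (k : ℤ × ℤ) (ρ : Fin 3 → ℝ) (hρ : ∀ s, 0 ≤ ρ s)
    (h : ∀ c : ℤ, ∑ s, (if (2:ℤ) ∣ c - kv k s then ρ s else 0) ≤ 1) (r : ℕ) (t : ℤ)
    (Q : Finset (Fin r → Fin 3)) (w : ℝ) (hw : 0 < w) (hQ : ∀ S ∈ Q, w ≤ ∏ i, ρ (S i)) :
    ((Q.filter fun S => XV k S = t).card : ℝ) ≤ w⁻¹ := by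
  classical
  have h1 : ((Q.filter fun S => XV k S = t).card : ℝ) * w ≤ 1 := by
    refine le_trans ?_ (tree k ρ hρ h r t)
    rw [← sum_filter, ← nsmul_eq_mul, ← sum_const]
    refine (sum_le_sum (fun S hS => hQ S (mem_filter.1 hS).1)).trans ?_
    apply sum_le_sum_of_subset_of_nonneg
    · intro S hS
      rw [mem_filter] at hS ⊢
      exact ⟨mem_univ _, hS.2⟩
    · intro S _ _
      exact prod_nonneg fun i _ => hρ _
  rw [← one_div]
  exact (le_div_iff₀ hw).2 h1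

end Pool.Agent.H93.BT
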